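import Mathlib
import Pool.Prelude.Def_F_c31e40fa
import Pool.Agent.X151.IR.AE

/-!
# Velocities of the escaping points at almost every parameter, and outside of small sets of
parameters, in the Multibrot sets (helper151)
-/

set_option autoImplicit false

open Filter Topology Set Metric MeasureTheory Complex N62a1eb23

namespace Pool.Agent.Results.MP_1365a2_an.VelocityGrowth

open Pool.Agent.H713R2 Pool.Agent.H713R2.AR

/-- The escape rate (Green's function of the filled Julia set) of `z ↦ z ^ n + c`. -/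
noncomputable def G (n : ℕ) (c z : ℂ) : ℝ :=
  limsup (fun k : ℕ => Real.posLog ‖(fun w : ℂ => w ^ n + c)^[k] z‖ / (n : ℝ) ^ k) atTop

/-- The velocity of the escaping points. The term of order `0` of the sum is `1`, so that this is
`- ∑_{k ≥ 1} 1 / (f_c^k)'(z)`. -/
noncomputable def V (n : ℕ) (c z : ℂ) : ℂ :=
  1 - ∑' k : ℕ, (deriv (fun w : ℂ => w ^ n + c)^[k] z)⁻¹

/-- The Dirichlet energy of the velocity outside of the sublevel set of Green's function. -/
noncomputable def energy (n : ℕ) (c : ℂ) (s : ℝ) : ENNReal :=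
  ∫⁻ z in {z : ℂ | s < G n c z}, ENNReal.ofReal (‖deriv (V n c) z‖ ^ 2)

/-- At the level `s` the size and the logarithmic Lipschitz constant of the velocity are bounded by
`K`. -/
def ModAt (n : ℕ) (c : ℂ) (K s : ℝ) : Prop :=
  (∀ z : ℂ, s ≤ G n c z → ‖V n c z‖ ≤ K * Real.exp (G n c z)) ∧
  ∀ z w : ℂ, s ≤ G n c z → G n c z ≤ 1 / 4 → s ≤ G n c w → G n c w ≤ 1 / 4 →
    ‖V n c z - V n c w‖ ≤ K * (‖z - w‖ * (1 + |Real.log ‖z - w‖|))

theorem G_eq (n : ℕ) (c z : ℂ) : G n c z = green n c z := rfl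

theorem V_eq (n : ℕ) (c : ℂ) : V n c = Pool.Agent.X151.MU.V n c := by
  funext z
  have hP : ∀ k, deriv (fun w : ℂ => w ^ n + c)^[k] z = Pool.Agent.W746.LD.P n c z k := fun k =>
    (Pool.Agent.W746.LD.hasDerivAt_orb z k).deriv
  unfold V Pool.Agent.X151.MU.V
  simp only [hP]

theorem energy_eq (n : ℕ) (c : ℂ) (s : ℝ) : energy n c s = Pool.Agent.X151.IR.En n c s := by
  unfold energy Pool.Agent.X151.IR.En
  rw [V_eq]
  simp only [G_eq]

theorem growAt_iff (n : ℕ) (c : ℂ) (K s : ℝ) :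
    (energy n c s ≤ ENNReal.ofReal K ∧ ModAt n c K s) ↔ Pool.Agent.X151.IR.GrowAt n c K s := by
  unfold ModAt Pool.Agent.X151.IR.GrowAt
  rw [energy_eq, V_eq]
  simp only [G_eq]

theorem modAt_iff (n : ℕ) (c : ℂ) (ε s : ℝ) :
    ModAt n c (s ^ (-ε)) s ↔ Pool.Agent.X151.IR.TameAt n c ε s := by
  unfold ModAt Pool.Agent.X151.IR.TameAt
  rw [V_eq]
  simp only [G_eq]

/-- (1) For almost every `c` in `M_n` and all `β > 1 / 2`, energy, size and logarithmic Lipschitz
constant of the velocity at the level `s` are at most `exp ((log (1 / s)) ^ β)` for all small `s`.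
(2), (3) Dimension bounds for the parameters with growth of order `s ^ (-ε)` on a sequence of levels.
(4) The same for the parameters with area of `{G_c ≤ s}` at most `s ^ α` on a sequence of levels.
(5) If Green's function of `M_n` is at most `s` on the disc of radius `r` about `c`, then `r ^ 2`
times the energy over `{G_c > s₁}` is at most the area of `{G_c ≤ s₁}`, for all `s₁ > s / n`. -/
theorem result (n : ℕ) (hn : 2 ≤ n) :
    (∀ᵐ c : ℂ, c ∈ multibrotSet n → ∀ β : ℝ, 1 / 2 < β → ∀ᶠ s : ℝ in 𝓝[>] 0,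
      energy n c s ≤ ENNReal.ofReal (Real.exp ((Real.log (1 / s)) ^ β)) ∧
      ModAt n c (Real.exp ((Real.log (1 / s)) ^ β)) s) ∧
    (∀ ε : ℝ, 0 < ε → dimH {c : ℂ | c ∈ multibrotSet n ∧
      ∃ᶠ s : ℝ in 𝓝[>] 0, ENNReal.ofReal (s ^ (-ε)) < energy n c s} ≤ ENNReal.ofReal (2 / ε)) ∧
    (∀ ε : ℝ, 0 < ε → dimH {c : ℂ | c ∈ multibrotSet n ∧
      ∃ᶠ s : ℝ in 𝓝[>] 0, ¬ ModAt n c (s ^ (-ε)) s} ≤ ENNReal.ofReal (1 / ε)) ∧
    (∀ α : ℝ, 0 < α → dimH {c : ℂ | c ∈ multibrotSet n ∧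
      ∃ᶠ s : ℝ in 𝓝[>] 0, (volume {z : ℂ | G n c z ≤ s}).toReal ≤ s ^ α} ≤
        ENNReal.ofReal (1 / α)) ∧
    ∀ c ∈ multibrotSet n, ∀ r s s₁ : ℝ, 0 < r → (∀ t ∈ ball c r, G n t t ≤ s) → s / n < s₁ →
      ENNReal.ofReal (r ^ 2) * energy n c s₁ ≤ volume {z : ℂ | G n c z ≤ s₁} := by
  obtain ⟨β₀, hβ₀⟩ := exists_beta (d := n) hn
  have hψ := exteriorMap_of_beta hβ₀
  refine ⟨?_, ?_, ?_, ?_, ?_⟩
  · have h2 := Pool.Agent.X151.IR.ae_grow hn
    rw [ae_restrict_iff' (Pool.Agent.H637R4.PO.t_CLO n hn).measurableSet] at h2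
    filter_upwards [h2] with c hc hcM β hβ
    filter_upwards [hc hcM β hβ] with s hs
    rw [growAt_iff]
    exact hs
  · intro ε hε
    have h1 : Tendsto (fun κ : ℝ => ENNReal.ofReal (κ / (1 : ℕ))) (𝓝[>] (2 / ε))
        (𝓝 (ENNReal.ofReal (2 / ε / (1 : ℕ)))) := by
      apply ENNReal.tendsto_ofReal
      exact (tendsto_id.div_const _).mono_left nhdsWithin_le_nhds
    rw [Nat.cast_one, div_one] at h1
    apply ge_of_tendsto h1
    filter_upwards [self_mem_nhdsWithin] with κ hκ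
    have hκ' : 2 / ε < κ := hκ
    have hκ0 : 0 < κ := lt_trans (by positivity) hκ'
    have h3 := Pool.Agent.Y736.RN.dim_big (d := n) (p := 1) hn le_rfl hψ hκ0
    rw [Nat.cast_one] at h3
    refine (dimH_mono ?_).trans h3
    rintro c ⟨hc, hf⟩
    refine ⟨Pool.Agent.Y736.RN.ren_one hn hc,
      Pool.Agent.X151.IR.big_of_energy hn hψ hc (ε := ε) hκ0 ?_ (hf.mono fun s hs => ?_)⟩
    · rw [div_lt_iff₀ hε] at hκ'
      rw [div_lt_iff₀ hκ0]
      linarith
    · rw [energy_eq] at hs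
      exact hs
  · intro ε hε
    have h1 : Tendsto (fun κ : ℝ => ENNReal.ofReal (κ / (1 : ℕ))) (𝓝[>] (1 / ε))
        (𝓝 (ENNReal.ofReal (1 / ε / (1 : ℕ)))) := by
      apply ENNReal.tendsto_ofReal
      exact (tendsto_id.div_const _).mono_left nhdsWithin_le_nhds
    rw [Nat.cast_one, div_one] at h1
    apply ge_of_tendsto h1
    filter_upwards [self_mem_nhdsWithin] with κ hκ
    have hκ' : 1 / ε < κ := hκ
    have hκ0 : 0 < κ := lt_trans (by positivity) hκ'
    have h3 := Pool.Agent.Y736.RN.dim_big (d := n) (p := 1) hn le_rfl hψ hκ0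
    rw [Nat.cast_one] at h3
    refine (dimH_mono ?_).trans h3
    rintro c ⟨hc, hf⟩
    refine ⟨Pool.Agent.Y736.RN.ren_one hn hc,
      Pool.Agent.X151.IR.big_of_not_tame hn hψ hc (ε := ε) hκ0 ?_ (hf.mono fun s hs => ?_)⟩
    · rw [div_lt_iff₀ hε] at hκ'
      rw [div_lt_iff₀ hκ0]
      linarith
    · rwa [modAt_iff] at hs
  · intro α hα
    have h3 := Pool.Agent.Y736.RN.dim_big (d := n) (p := 1) (κ := 1 / α) hn le_rfl hψ
      (by positivity)
    rw [Nat.cast_one, div_one] at h3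
    refine (dimH_mono ?_).trans h3
    rintro c ⟨hc, hf⟩
    exact ⟨Pool.Agent.Y736.RN.ren_one hn hc, Pool.Agent.X151.IR.big_of_area hn hψ hc hα hf⟩
  · intro c hc r s s₁ hr hs hs₁
    rw [energy_eq]
    exact Pool.Agent.X151.IR.dirM hn hc hr hs hs₁

end Pool.Agent.Results.MP_1365a2_an.VelocityGrowth
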